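import Pool.Agent.Z702.Defs2
import Pool.Agent.Y664.Z.Sela2

/-!
# Job Z702-LOC: a kernel vector gives an element of the isogeny Selmer group

The lemmas `padic_sq`, `padic_sq2` are those of `Pool/Agent/TH841/LS/Lin.lean`; the facts on `pr` and
on the residue symbols are from `Pool/Agent/Y664/Z`.
-/

set_option autoImplicit false
set_option linter.style.haveILetI false

namespace Pool.Agent.Y319.Z702

open Finset Polynomial

open Pool.Agent.Z700 (pr lres)

open Pool.Agent.Z701 (Sp Nr xrS)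

open Pool.Agent.Z702

open Pool.Agent.Y700 (Rt)

lemma padic_sq {p : ℕ} [hp : Fact p.Prime] (hp2 : p ≠ 2) {n : ℤ} (hn : ¬ (p : ℤ) ∣ n)
    (h : IsSquare (n : ZMod p)) : IsSquare (n : ℚ_[p]) := by
  obtain ⟨a, ha⟩ := h
  obtain ⟨s, hs⟩ := ZMod.intCast_surjective a
  have h1 : (p : ℤ) ∣ s ^ 2 - n := by
    rw [← ZMod.intCast_zmod_eq_zero_iff_dvd]
    push_cast
    rw [ha, hs]
    ring
  have h2 : ¬ (p : ℤ) ∣ 2 * s := by
    intro h2
    have hpi : Prime (p : ℤ) := Nat.prime_iff_prime_int.1 hp.out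
    rcases hpi.dvd_or_dvd h2 with h3 | h3
    · have h5 : p ∣ 2 := by exact_mod_cast h3
      exact hp2 ((Nat.prime_dvd_prime_iff_eq hp.out Nat.prime_two).1 h5)
    · apply hn
      have := dvd_sub ((dvd_pow h3 two_ne_zero : (p : ℤ) ∣ s ^ 2)) h1
      simpa using this
  have e1 : ∀ w : ℤ_[p], (aeval w) (X ^ 2 - C (n : ℤ_[p]) : ℤ_[p][X]) = w ^ 2 - n := by
    intro w; simp
  have e2 : ∀ w : ℤ_[p], (aeval w) (derivative (X ^ 2 - C (n : ℤ_[p]) : ℤ_[p][X])) = 2 * w := by
    intro w; simp; norm_num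
  obtain ⟨z, hz, -⟩ := hensels_lemma (p := p) (R := ℤ_[p]) (F := X ^ 2 - C (n : ℤ_[p]))
    (a := (s : ℤ_[p])) (by
      rw [e1, e2]
      have h3 : ‖((s ^ 2 - n : ℤ) : ℤ_[p])‖ < 1 := by
        rw [PadicInt.norm_intCast_lt_one_iff]
        exact h1
      have h4 : ‖((2 * s : ℤ) : ℤ_[p])‖ = 1 := by
        have h5 : ¬ ‖((2 * s : ℤ) : ℤ_[p])‖ < 1 := by
          rw [PadicInt.norm_intCast_lt_one_iff]
          exact h2
        exact le_antisymm (PadicInt.norm_le_one _) (not_lt.1 h5)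
      push_cast at h3 h4
      rw [h4]
      simpa using h3)
  rw [e1] at hz
  have h6 := congrArg (fun w : ℤ_[p] => (w : ℚ_[p])) (sub_eq_zero.1 hz)
  push_cast at h6
  exact ⟨z, by rw [← h6]; ring⟩

lemma padic_sq2 {n : ℤ} (hn : n % 8 = 1) : IsSquare (n : ℚ_[2]) := by
  have e1 : ∀ w : ℤ_[2], (aeval w) (X ^ 2 - C (n : ℤ_[2]) : ℤ_[2][X]) = w ^ 2 - n := by
    intro w; simp
  have e2 : ∀ w : ℤ_[2], (aeval w) (derivative (X ^ 2 - C (n : ℤ_[2]) : ℤ_[2][X])) = 2 * w := by
    intro w; simp; norm_num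
  obtain ⟨z, hz, -⟩ := hensels_lemma (p := 2) (R := ℤ_[2]) (F := X ^ 2 - C (n : ℤ_[2]))
    (a := 1) (by
      rw [e1, e2]
      have h4 : ‖(2 : ℤ_[2])‖ = 2⁻¹ := by
        have := PadicInt.norm_p (p := 2)
        exact_mod_cast this
      have h3 : ‖((1 - n : ℤ) : ℤ_[2])‖ ≤ ((2 : ℕ) : ℝ) ^ (-(3 : ℕ) : ℤ) := by
        rw [PadicInt.norm_int_le_pow_iff_dvd]
        push_cast
        omega
      push_cast at h3
      rw [one_pow, mul_one, h4]
      refine lt_of_le_of_lt h3 ?_
      norm_num)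
  rw [e1] at hz
  have h6 := congrArg (fun w : ℤ_[2] => (w : ℚ_[2])) (sub_eq_zero.1 hz)
  push_cast at h6
  exact ⟨z, by rw [← h6]; ring⟩

/-- `pr J = 1 mod 8` -/
lemma pr8 {J : Finset ℕ} (hJ : ∀ q ∈ J, Sp q) : pr J % 8 = 1 := by
  classical
  induction J using Finset.induction_on with
  | empty => simp [pr]
  | insert q K hq ih =>
    have e1 : pr (insert q K) = q * pr K := by
      unfold pr
      rw [Finset.prod_insert hq]
    rw [e1, Nat.mul_mod, (hJ q (Finset.mem_insert_self _ _)).2.1,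
      ih fun r hr => hJ r (Finset.mem_insert_of_mem hr)]

/-- `pr J` is a square modulo `7` -/
lemma pr7 {J : Finset ℕ} (hJ : ∀ q ∈ J, Sp q) : pr J % 7 = 1 ∨ pr J % 7 = 2 ∨ pr J % 7 = 4 := by
  classical
  induction J using Finset.induction_on with
  | empty => left; simp [pr]
  | insert q K hq ih =>
    have e1 : pr (insert q K) = q * pr K := by
      unfold pr
      rw [Finset.prod_insert hq]
    have h1 := (hJ q (Finset.mem_insert_self _ _)).2.2
    have h2 := ih fun r hr => hJ r (Finset.mem_insert_of_mem hr)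
    rw [e1, Nat.mul_mod]
    rcases h1 with h1 | h1 | h1 <;> rcases h2 with h2 | h2 | h2 <;> rw [h1, h2] <;> norm_num

theorem t_LOC (hq : Pool.Agent.Z702.S_LQ) (hg : Pool.Agent.Z702.S_LG) (hp : Pool.Agent.Z702.S_LP) :
    Pool.Agent.Z702.S_LOC := by
  classical
  intro P S hP hS J hJ h1 h2
  -- the basic facts
  have hprP : ∀ q ∈ P, q.Prime := fun q hq => (hP q hq).1
  have hprJ : ∀ q ∈ J, q.Prime := fun q hq => hprP q (hJ hq)
  have hprS : ∀ q ∈ S, q.Prime := fun q hq => (hS q hq).1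
  have hSJ : ∀ q ∈ J, Sp q := fun q hq => hP q (hJ hq)
  have hP0 : pr P ≠ 0 := by
    unfold pr
    exact Finset.prod_ne_zero_iff.2 fun q hq => (hprP q hq).ne_zero
  have hS0 : pr S ≠ 0 := by
    unfold pr
    exact Finset.prod_ne_zero_iff.2 fun q hq => (hprS q hq).ne_zero
  have hJ0 : pr J ≠ 0 := by
    unfold pr
    exact Finset.prod_ne_zero_iff.2 fun q hq => (hprJ q hq).ne_zero
  set M : ℤ := ((pr P * pr S : ℕ) : ℤ) with hM
  have hM0 : M ≠ 0 := by
    rw [hM]
    exact_mod_cast Nat.mul_ne_zero hP0 hS0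
  have hd0 : ((pr J : ℕ) : ℤ) ≠ 0 := by exact_mod_cast hJ0
  have hdp : (0 : ℤ) < ((pr J : ℕ) : ℤ) := by exact_mod_cast Nat.pos_of_ne_zero hJ0
  have hb : 128 * M ^ 2 ≠ 0 := mul_ne_zero (by norm_num) (pow_ne_zero 2 hM0)
  have hab : (13 * M) ^ 2 - 4 * (128 * M ^ 2) ≠ 0 := by
    have e : (13 * M) ^ 2 - 4 * (128 * M ^ 2) = -343 * M ^ 2 := by ring
    rw [e]
    exact mul_ne_zero (by norm_num) (pow_ne_zero 2 hM0)
  obtain ⟨hq1, hq2⟩ := hq (13 * M) (128 * M ^ 2) ((pr J : ℕ) : ℤ) hb hab hd0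
  refine ⟨?_, hq2 hdp⟩
  intro l hl
  have hlp : l.Prime := hl.out
  have hlP : Prime (l : ℤ) := Nat.prime_iff_prime_int.1 hlp
  -- the prime two
  by_cases l2 : l = 2
  · subst l2
    refine hq1 2 (Or.inl (padic_sq2 ?_))
    have := pr8 hSJ
    omega
  by_cases l7 : l = 7
  · subst l7
    have h7 := pr7 hSJ
    refine hq1 7 (Or.inl (padic_sq (by norm_num) ?_ ?_))
    · intro h
      have h' : 7 ∣ pr J := by exact_mod_cast h
      omega
    · have e : (((pr J : ℕ) : ℤ) : ZMod 7) = ((pr J % 7 : ℕ) : ZMod 7) := by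
        rw [ZMod.natCast_mod]
        push_cast
        rfl
      rw [e]
      exact (Pool.Agent.Y664.Z1.sq7r (pr J % 7) (Nat.mod_lt _ (by norm_num)) (by omega)).2 h7
  by_cases lJ : l ∈ J
  · -- the primes which divide `d`
    have hlP' : l ∈ P := hJ lJ
    have l8 := (hP l hlP').2.1
    have l7' := (hP l hlP').2.2
    have hlS : l ∉ S := fun h => by
      have := (hS l h).2.1
      omega
    have hs7 : IsSquare (-7 : ZMod l) := (Pool.Agent.Y664.Z1.sq_seven l (by omega) l7).2 l7'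
    have eP : pr P = l * pr (P.erase l) := Pool.Agent.Y664.Z.pr_erase hlP'
    have eJ : pr J = l * pr (J.erase l) := Pool.Agent.Y664.Z.pr_erase lJ
    have eD : pr (P.erase l) = pr (J.erase l) * pr (P \ J) := Pool.Agent.Y664.Z.pr_erase_sdiff hJ lJ
    have nS : ¬ l ∣ pr S := Pool.Agent.Y664.Z.prime_not_dvd_pr hlp hprS hlS
    have nJ : ¬ l ∣ pr (J.erase l) := Pool.Agent.Y664.Z.prime_not_dvd_pr hlp
      (fun q hq => hprJ q (Finset.mem_of_mem_erase hq)) (Finset.notMem_erase l J)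
    have nP : ¬ l ∣ pr (P.erase l) := Pool.Agent.Y664.Z.prime_not_dvd_pr hlp
      (fun q hq => hprP q (Finset.mem_of_mem_erase hq)) (Finset.notMem_erase l P)
    have hpar := Pool.Agent.Y664.Z.parity hlp l8 (P \ J)
      (fun q hq => ⟨(hP q (Finset.mem_sdiff.1 hq).1).1, (hP q (Finset.mem_sdiff.1 hq).1).2.1⟩)
      (fun h => (Finset.mem_sdiff.1 h).2 lJ)
    have h4 := h2 l lJ
    have h5 : IsSquare ((pr (P \ J) : ℕ) : ZMod l) ↔ ¬ Rt l (pr S) := by
      rw [hpar]
      unfold xrS at h4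
      by_cases h5 : Rt l (pr S)
      · rw [if_pos h5, Int.even_add] at h4
        constructor
        · intro h6
          exact absurd (h4.1 h6) (by decide)
        · intro h6
          exact absurd h5 h6
      · rw [if_neg h5, add_zero] at h4
        exact ⟨fun _ => h5, fun _ => h4⟩
    have h6 := hp l l8 hs7 (pr S) (((pr (P.erase l) * pr S : ℕ)) : ℤ) ((pr (J.erase l) : ℕ) : ℤ) nS
      (by
        intro h
        have h' : l ∣ pr (P.erase l) * pr S := by exact_mod_cast h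
        rcases hlp.dvd_mul.1 h' with h' | h'
        · exact nP h'
        · exact nS h')
      (by
        intro h
        exact nJ (by exact_mod_cast h))
      (by
        rw [← h5]
        have e : ((((pr (P.erase l) * pr S : ℕ) : ℤ) * ((pr (J.erase l) : ℕ) : ℤ) * (pr S : ℕ) : ℤ) :
            ZMod l) = ((pr (P \ J) : ℕ) : ZMod l) *
              (((pr (J.erase l) : ℕ) : ZMod l) * ((pr S : ℕ) : ZMod l)) ^ 2 := by
          rw [eD]
          push_cast
          ring
        rw [e]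
        have hu : ((pr (J.erase l) : ℕ) : ZMod l) * ((pr S : ℕ) : ZMod l) ≠ 0 := by
          refine mul_ne_zero ?_ ?_
          · intro h0
            exact nJ ((ZMod.natCast_eq_zero_iff _ _).1 h0)
          · intro h0
            exact nS ((ZMod.natCast_eq_zero_iff _ _).1 h0)
        generalize ((pr (J.erase l) : ℕ) : ZMod l) * ((pr S : ℕ) : ZMod l) = u at hu
        constructor
        · rintro ⟨r, hr⟩
          refine ⟨r / u, ?_⟩
          field_simp
          rw [hr]
          ring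
        · rintro ⟨r, hr⟩
          refine ⟨r * u, ?_⟩
          rw [hr]
          ring)
    have eM : M = (l : ℤ) * (((pr (P.erase l) * pr S : ℕ)) : ℤ) := by
      rw [hM, eP]
      push_cast
      ring
    have eJ' : ((pr J : ℕ) : ℤ) = (l : ℤ) * ((pr (J.erase l) : ℕ) : ℤ) := by
      rw [eJ]
      push_cast
      ring
    rw [eM, eJ']
    exact h6
  -- the other primes
  have nJ : ¬ (l : ℤ) ∣ ((pr J : ℕ) : ℤ) := by
    intro h
    exact Pool.Agent.Y664.Z.prime_not_dvd_pr hlp hprJ lJ (by exact_mod_cast h)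
  by_cases lP : l ∈ P
  · refine hq1 l (Or.inl (padic_sq l2 nJ ?_))
    have hpar := Pool.Agent.Y664.Z.parity hlp (hP l lP).2.1 J
      (fun q hq => ⟨(hSJ q hq).1, (hSJ q hq).2.1⟩) lJ
    have h3 := hpar.2 (h1 l (Finset.mem_sdiff.2 ⟨lP, lJ⟩))
    push_cast
    exact h3
  by_cases lS : l ∈ S
  · obtain ⟨-, l8, l7'⟩ := hS l lS
    have hs7 : ¬ IsSquare (-7 : ZMod l) := by
      rw [Pool.Agent.Y664.Z1.sq_seven l (by omega) l7]
      omega
    by_cases hsq : IsSquare (((pr J : ℕ) : ℤ) : ZMod l)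
    · exact hq1 l (Or.inl (padic_sq l2 nJ hsq))
    · refine hq1 l (Or.inr ?_)
      have hd : (((pr J : ℕ) : ℤ) : ZMod l) ≠ 0 := by
        rw [Ne, ZMod.intCast_zmod_eq_zero_iff_dvd]
        exact nJ
      have h70 : (-7 : ZMod l) ≠ 0 := by
        intro h0
        have : (((7 : ℕ)) : ZMod l) = 0 := by
          push_cast
          linear_combination -h0
        rw [ZMod.natCast_eq_zero_iff] at this
        exact l7 ((Nat.prime_dvd_prime_iff_eq hlp (by norm_num)).1 this)
      have h77 : IsSquare ((((pr J : ℕ) : ℤ) * (-7) : ℤ) : ZMod l) := by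
        push_cast
        have e1 : quadraticChar (ZMod l) (((pr J : ℕ) : ℤ) : ZMod l) = -1 :=
          quadraticChar_neg_one_iff_not_isSquare.2 hsq
        have e2 : quadraticChar (ZMod l) (-7 : ZMod l) = -1 :=
          quadraticChar_neg_one_iff_not_isSquare.2 hs7
        have hne : (((pr J : ℕ) : ℤ) : ZMod l) * (-7) ≠ 0 := mul_ne_zero hd h70
        have e3 : quadraticChar (ZMod l) ((((pr J : ℕ) : ℤ) : ZMod l) * (-7)) = 1 := by
          rw [map_mul, e1, e2]
          norm_num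
        have e4 := (quadraticChar_one_iff_isSquare hne).1 e3
        push_cast at e4
        exact e4
      have hn7 : ¬ (l : ℤ) ∣ ((pr J : ℕ) : ℤ) * (-7) := by
        intro h
        rw [← ZMod.intCast_zmod_eq_zero_iff_dvd] at h
        push_cast at h
        rcases mul_eq_zero.1 h with h | h
        · exact hd (by push_cast; exact h)
        · exact h70 h
      obtain ⟨r, hr⟩ := padic_sq l2 hn7 h77
      refine ⟨r * (7 * (M : ℚ_[l])), ?_⟩
      push_cast at hr ⊢
      linear_combination (49 * (M : ℚ_[l]) ^ 2) * hr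
  · refine hg l M ((pr J : ℕ) : ℤ) l2 l7 ?_ nJ
    rw [hM]
    intro h
    have h' : l ∣ pr P * pr S := by exact_mod_cast h
    rcases hlp.dvd_mul.1 h' with h' | h'
    · exact Pool.Agent.Y664.Z.prime_not_dvd_pr hlp hprP lP h'
    · exact Pool.Agent.Y664.Z.prime_not_dvd_pr hlp hprS lS h'

end Pool.Agent.Y319.Z702
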